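import Mathlib
import Pool.Agent.Q217.MZ.Double

/-!
# Double zeta values of the same weight at finitely many shapes, with real coefficients

Fix finitely many shapes `(a, b)`; the double zeta value of the shape `(a, b)` at `n` is
`ζ(a n + b, (K n + L) - (a n + b))`, of weight `k = K n + L`. Constant arguments are allowed: `a = 0`
gives the values `ζ(b, k - b)`, and `a = K` the values `ζ(k - c, c)`. Given real coefficients, not all
zero, the combination of these values and of `ζ(k)` is larger than `N ^ (-n)` in absolute value for all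
large `n`, where `N` does not depend on the coefficients. So a relation with given real coefficients
between the double zeta values of weight `k` of given shapes is true for finitely many weights only.

The proof is a theorem of the library (`Pool.Agent.Q217.MZ.Double`): the shapes with a constant first
argument are converted by the stuffle product, and the others are treated with the asymptotic
independence of the multiple zeta values of finitely many patterns.
-/

set_option autoImplicit false

namespace Pool.Agent.Results.MP_9206b6_nt.AllShapes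

/-- the double zeta value `ζ(s, t)`, the sum of `l ^ (-s) m ^ (-t)` over `l > m ≥ 1` -/
noncomputable def doubleZeta (s t : ℕ) : ℝ :=
  ∑' l : ℕ, (∑ m ∈ Finset.Ico 1 (l + 1), 1 / (m : ℝ) ^ t) / ((l + 1 : ℕ) : ℝ) ^ s

/-- `(a, b)` is a shape for the weights `K n + L`: the first argument is `a n + b` and the second one
`(K - a) n + (L - b)`; a constant first argument is at least `2`, a constant second argument at
least `1` -/
def IsShape (K L : ℕ) (p : ℕ × ℕ) : Prop :=
  p.1 ≤ K ∧ p.2 ≤ L ∧ (p.1 = 0 → 2 ≤ p.2) ∧ (p.1 = K → p.2 < L)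

open Pool.Agent.TH507.WD (mz hr hr_nil hr_cons)

lemma mz_two (s t : ℕ) : mz [s, t] = doubleZeta s t := by
  rw [mz, doubleZeta]
  refine tsum_congr fun l => ?_
  rw [hr_cons]
  simp only [hr_nil]

lemma mz_one (s : ℕ) : mz [s] = ∑' l : ℕ, 1 / ((l + 1 : ℕ) : ℝ) ^ s := by
  rw [mz]
  refine tsum_congr fun l => ?_
  rw [hr_nil]

/-- Let `K ≥ 1`, `L` be natural numbers and `S` a finite set of shapes for the weights `K n + L`. There
is `N ≥ 1` such that for all real numbers `x_p` (`p ∈ S`) and `y`, not all zero, there is `n0` with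

`|∑_{(a, b) ∈ S} x_(a,b) ζ(a n + b, (K n + L) - (a n + b)) + y ζ(K n + L)| > N ^ (-n)`

for all `n ≥ n0`. -/
theorem result {K L : ℕ} (hK : 1 ≤ K) (S : Finset (ℕ × ℕ)) (hS : ∀ p ∈ S, IsShape K L p) :
    ∃ N : ℕ, 1 ≤ N ∧ ∀ (x : ℕ × ℕ → ℝ) (y : ℝ), ((∃ p ∈ S, x p ≠ 0) ∨ y ≠ 0) →
      ∃ n0 : ℕ, ∀ n, n0 ≤ n →
      ((N : ℝ) ^ n)⁻¹ < |∑ p ∈ S, x p * doubleZeta (p.1 * n + p.2) ((K * n + L) - (p.1 * n + p.2)) +
        y * ∑' m : ℕ, 1 / ((m + 1 : ℕ) : ℝ) ^ (K * n + L)| := by
  obtain ⟨N, hN, h⟩ := Pool.Agent.Q217.MZ.shapes hK S hS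
  refine ⟨N, hN, fun x y hxy => ?_⟩
  obtain ⟨n0, h0⟩ := h x y hxy
  refine ⟨n0, fun n hn => ?_⟩
  have h1 := h0 n hn
  simp only [mz_two, mz_one] at h1
  exact h1

end Pool.Agent.Results.MP_9206b6_nt.AllShapes
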