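import Pool.Agent.X90.DD.Dist
import Pool.Agent.N628.CMT.Gen

/-!
# MP_9206b6_nt: double zeta values of one weight, for the weights near all multiples of Carmichael's function

A letter in `k` variables is a pair `(b, u)` of a natural number and a `k`-tuple of natural numbers, and stands for
`b + u_1 s_1 + ... + u_k s_k`. A family of shapes consists of different pairs `(x_i, y_i)` of letters with the same
nonconstant sum `z`, for example `ζ(3, s - 3)`, `ζ(5, s - 5)`, `ζ(s_1 + 1, s_2 - 1)`, ... (after a shift of the variables). At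
a tuple `s` it gives double zeta values `ζ(x_i(s), y_i(s))` of the same weight `z(s)`; constant first or second arguments
are allowed. The question asks for the relations between the double zeta values of one weight with odd arguments.

Let `B ≥ 1`, `B (k - 1) < k`; for `k = 1` every `B` is allowed. We prove: for all `k`-tuples `m` of positive integers up to `N`
but `N^k / (log N)^U`, for EVERY tuple `v` of multiples `v_i ≤ N^B` of Carmichael's function `λ(m_i)`, for ALL tuples
`s = (a_i v_i + b_i)` with integers `a_i ≠ 0`, `|a_i|, |b_i| ≤ v_l^η` for some `l`, and all `X` with `X ≤ s_i ≤ κ X` for all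
`i`, the double zeta values `ζ(x_i(s), y_i(s))` of the weight `z(s)` and the number `ζ(z(s))` satisfy no nontrivial linear
relation with integer coefficients of absolute value at most `C ^ X`.

The number of the tuples in `[N, κ N] ^ k` for which there is such a relation is at most `K N ^ (k - 1)` (from the starting
library, `Pool.Agent.X90.DD.dist`; see `MP_2000e9_nt.PatternsOfOneWeight`). But a single `v ≤ N^B` can be a multiple of
`λ(m)` for more than `N^(1 - ε)` numbers `m ≤ N` (popular values), and all multiples `v_i` of `λ(m_i)` up to `N^B`, with all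
their windows, are considered at once. So this does not follow from the number of the tuples. The proof uses the tool
`N790/CM` of helper790.
-/

set_option autoImplicit false

namespace Pool.Agent.Results.MP_9206b6_nt.CarmichaelMultiples

open Pool.Agent.N790.CM (FewTimes Carries fewTimes_pred carries_carmichael)
open Pool.Agent.N628.CMT (NearMultiple powers)

/-- the double zeta value `ζ(s, t)`: the sum of `l ^ (-s) m ^ (-t)` over `l > m ≥ 1` -/
noncomputable def doubleZeta (s t : ℕ) : ℝ :=
  ∑' l : ℕ, (∑ m ∈ Finset.Ico 1 (l + 1), 1 / (m : ℝ) ^ t) / ((l + 1 : ℕ) : ℝ) ^ s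

/-- the zeta value `ζ(s)`: the sum of `l ^ (-s)` over `l ≥ 1` -/
noncomputable def zeta (s : ℕ) : ℝ := ∑' l : ℕ, 1 / ((l + 1 : ℕ) : ℝ) ^ s

/-- the letter `(b, u)` stands for `b + ∑ u_j s_j` -/
abbrev Letter (k : ℕ) : Type := ℕ × (Fin k → ℕ)

/-- the value of a letter at the tuple `s` -/
def value {k : ℕ} (s : Fin k → ℕ) (x : Letter k) : ℕ := x.1 + ∑ j, x.2 j * s j

/-- different pairs `(x_i, y_i)` of letters with the same nonconstant sum `z`; a constant first letter `x_i` is at least two, a
constant second letter `y_i` is at least one -/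
def Shapes {k r : ℕ} (x y : Fin r → Letter k) (z : Letter k) : Prop :=
  z.2 ≠ 0 ∧ (∀ i, x i + y i = z ∧ ((x i).2 ≠ 0 ∨ 2 ≤ (x i).1) ∧ ((y i).2 ≠ 0 ∨ 1 ≤ (y i).1)) ∧
    Function.Injective fun i => (x i, y i)

/-- the double zeta values `ζ(x_i(s), y_i(s))` and `ζ(z(s))` satisfy a nontrivial linear relation with integer coefficients of
absolute value at most `H` -/
def HasRelation {k r : ℕ} (x y : Fin r → Letter k) (z : Letter k) (H : ℝ) (s : Fin k → ℕ) : Prop :=
  ∃ (d : ℤ) (c : Fin r → ℤ), (d ≠ 0 ∨ c ≠ 0) ∧ |(d : ℝ)| ≤ H ∧ (∀ i, |(c i : ℝ)| ≤ H) ∧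
    (d : ℝ) * zeta (value s z) + ∑ i, (c i : ℝ) * doubleZeta (value s (x i)) (value s (y i)) = 0

theorem zeta_eq (s : ℕ) : zeta s = Pool.Agent.Y760.ZG.mz [s] := by
  rw [zeta, Pool.Agent.Y760.ZG.mz]
  refine tsum_congr fun l => ?_
  rw [Pool.Agent.Y760.ZG.hr]

theorem doubleZeta_eq (s t : ℕ) : doubleZeta s t = Pool.Agent.Y760.ZG.mz [s, t] := by
  rw [doubleZeta, Pool.Agent.Y760.ZG.mz]
  refine tsum_congr fun l => ?_
  rw [Pool.Agent.Y760.ZG.hr]
  congr 1

/-- the patterns of a family of shapes, with the pattern of the weight -/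
def pats {k r : ℕ} (x y : Fin r → Letter k) (z : Letter k) : Fin (r + 1) → List (Letter k) :=
  Fin.cons [z] fun i => [x i, y i]

theorem value_add {k : ℕ} (s : Fin k → ℕ) (x y : Letter k) : value s (x + y) = value s x + value s y := by
  simp only [value, Prod.fst_add, Prod.snd_add, Pi.add_apply, add_mul, Finset.sum_add_distrib]
  ring

/-- the initial segments of the constant parts have at most one letter -/
theorem prefix_pats {k r : ℕ} {x y : Fin r → Letter k} {z : Letter k} (h : Shapes x y z) (i : Fin (r + 1)) (q : List ℕ)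
    (hq : q <+: Pool.Agent.X90.DC.fpx (pats x y z i)) : q = [] ∨ ∃ a, 1 ≤ a ∧ q = [a] := by
  obtain ⟨hz, h1, -⟩ := h
  revert hq
  refine Fin.cases ?_ (fun i => ?_) i
  · intro hq
    rw [pats, Fin.cons_zero, Pool.Agent.X90.DC.fpx, if_neg hz] at hq
    exact Or.inl (List.prefix_nil.1 hq)
  · intro hq
    rw [pats, Fin.cons_succ, Pool.Agent.X90.DC.fpx] at hq
    by_cases hx : (x i).2 = 0
    · have hy : (y i).2 ≠ 0 := by
        intro hy
        apply hz
        rw [← (h1 i).1, Prod.snd_add, hx, hy, add_zero]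
      rw [if_pos hx, Pool.Agent.X90.DC.fpx, if_neg hy] at hq
      rcases List.prefix_cons_iff.1 hq with h2 | ⟨t, h2, h3⟩
      · exact Or.inl h2
      · rw [List.prefix_nil] at h3
        refine Or.inr ⟨(x i).1, ?_, by rw [h2, h3]⟩
        rcases (h1 i).2.1 with h4 | h4
        · exact absurd hx h4
        · omega
    · rw [if_neg hx] at hq
      exact Or.inl (List.prefix_nil.1 hq)

/-- few tuples with a relation -/
theorem few {k r : ℕ} {x y : Fin r → Letter k} {z : Letter k} (h : Shapes x y z) (κ : ℕ) :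
    ∃ K : ℕ, ∀ C : ℝ, ∃ N₀ : ℕ, ∀ N : ℕ, N₀ ≤ N →
      {s : Fin k → ℕ | (∀ j, N ≤ s j ∧ s j ≤ κ * N) ∧ HasRelation x y z (C ^ N) s}.ncard ≤ K * N ^ (k - 1) := by
  classical
  have hz := h.1
  have h1 := h.2.1
  have h2 := h.2.2
  have hadm : ∀ i, (∀ u ∈ (pats x y z i).head?, u.2 ≠ 0 ∨ 2 ≤ u.1) ∧ ∀ u ∈ pats x y z i, u.2 ≠ 0 ∨ 1 ≤ u.1 := by
    intro i
    refine Fin.cases ?_ (fun i => ?_) i
    · rw [pats, Fin.cons_zero]
      simp [hz]
    · rw [pats, Fin.cons_succ]
      refine ⟨fun u hu => ?_, fun u hu => ?_⟩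
      · rw [List.head?_cons, Option.mem_some_iff] at hu
        rw [← hu]
        exact (h1 i).2.1
      · rw [List.mem_cons, List.mem_singleton] at hu
        rcases hu with rfl | rfl
        · rcases (h1 i).2.1 with h3 | h3
          · exact Or.inl h3
          · exact Or.inr (by omega)
        · exact (h1 i).2.2
  have hinj : Function.Injective (pats x y z) := by
    intro i j
    refine Fin.cases ?_ (fun i => ?_) i <;> refine Fin.cases ?_ (fun j => ?_) j
    · intro _; rfl
    · intro h3
      rw [pats, Fin.cons_zero, Fin.cons_succ] at h3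
      simp at h3
    · intro h3
      rw [pats, Fin.cons_zero, Fin.cons_succ] at h3
      simp at h3
    · intro h3
      rw [pats, Fin.cons_succ, Fin.cons_succ, List.cons.injEq, List.cons.injEq] at h3
      rw [h2 (Prod.ext h3.1 h3.2.1 : (x i, y i) = (x j, y j))]
  have hsum : ∀ i (s : Fin k → ℕ), ((pats x y z i).map fun u => u.1 + ∑ j, u.2 j * s j).sum = value s z := by
    intro i s
    refine Fin.cases ?_ (fun i => ?_) i
    · rw [pats, Fin.cons_zero]
      simp [value]
    · rw [pats, Fin.cons_succ, ← (h1 i).1, value_add]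
      simp [value]
  obtain ⟨K, hK⟩ := Pool.Agent.X90.DD.dist k (r + 1) (pats x y z) hadm hinj
    (fun i j s => (hsum i s).trans (hsum j s).symm)
    (fun i j q q' h3 h4 h5 => by
      rcases prefix_pats h i q h3 with h6 | ⟨a, ha, h6⟩ <;> rcases prefix_pats h j q' h4 with h7 | ⟨b, hb, h7⟩
      · rw [h6, h7]
      · rw [h6, h7] at h5
        simp at h5
        omega
      · rw [h6, h7] at h5
        simp at h5
        omega
      · rw [h6, h7] at h5
        rw [h6, h7]
        simpa using h5) κ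
  refine ⟨K, fun C => ?_⟩
  obtain ⟨N₀, hN₀⟩ := hK C
  refine ⟨N₀, fun N hN => ?_⟩
  have hfin : {s : Fin k → ℕ | (∀ j, N ≤ s j ∧ s j ≤ κ * N) ∧ HasRelation x y z (C ^ N) s}.Finite := by
    refine (Set.Finite.pi' (t := fun _ : Fin k => Set.Icc N (κ * N)) fun _ => Set.finite_Icc _ _).subset ?_
    intro s hs j
    exact ⟨(hs.1 j).1, (hs.1 j).2⟩
  rw [Set.ncard_eq_toFinset_card _ hfin]
  refine hN₀ N hN _ fun s hs => ?_
  rw [Set.Finite.mem_toFinset] at hs
  obtain ⟨h3, d, c, h4, h5, h6, h7⟩ := hs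
  refine ⟨h3, Fin.cons d c, fun h8 => ?_, fun i => ?_, ?_⟩
  · rcases h4 with h4 | h4
    · exact h4 (by simpa using congrFun h8 0)
    · refine h4 (funext fun i => ?_)
      simpa using congrFun h8 i.succ
  · refine Fin.cases ?_ (fun i => ?_) i
    · rw [Fin.cons_zero]; exact h5
    · rw [Fin.cons_succ]; exact h6 i
  · rw [← h7, Fin.sum_univ_succ, Fin.cons_zero, zeta_eq]
    refine congrArg₂ (· + ·) rfl (Finset.sum_congr rfl fun i _ => ?_)
    rw [Fin.cons_succ, doubleZeta_eq]
    rfl

/-- **Theorem.** Let `k ≥ 1`, `B ≥ 1`, `B (k - 1) < k`. There is `η > 0` such that for all families `(x_i, y_i)` of shapes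
with the weight `z`, for all `κ`, `C`, all `F_1, ..., F_k` which take each positive value at most `T` times at the primes and
all `U`, for all large `N` and all but at most `N^k / (log N)^U` of the tuples `m` of integers in `[1, N]`: for ALL `v` with
`1 ≤ v_i ≤ N^B` and `F_i(p) ∣ v_i` for all primes `p > exp (√(log N))` which divide `m_i` exactly once, for ALL tuples `s` of
natural numbers `s_i = a_i v_i + b_i` with integers `a_i ≠ 0`, `|a_i|, |b_i| ≤ v_l^η` for some `l`, and all `X ≥ 1` with
`X ≤ s_i ≤ κ X` for all `i`, the double zeta values `ζ(x_i(s), y_i(s))` and `ζ(z(s))` satisfy no nontrivial linear relation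
with integer coefficients of absolute value at most `C ^ X`. The function `f(p) = p - 1` takes each value at most once, and
every multiple of Carmichael's function `λ(m)` is divisible by `p - 1` for all `p ∣ m`. -/
theorem result :
    (∀ k : ℕ, 1 ≤ k → ∀ B : ℝ, 1 ≤ B → B * ((k : ℝ) - 1) < k → ∃ η : ℝ, 0 < η ∧
      ∀ (r : ℕ) (x y : Fin r → Letter k) (z : Letter k), Shapes x y z →
      ∀ (κ : ℕ) (C : ℝ) (T : ℕ) (F : Fin k → ℕ → ℕ), (∀ i, FewTimes (F i) T) → ∀ U : ℕ, ∃ N₀ : ℕ, ∀ N : ℕ, N₀ ≤ N →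
      ({m : Fin k → ℕ | (∀ i, 1 ≤ m i ∧ m i ≤ N) ∧ ¬ ∀ v : Fin k → ℕ, (∀ i, 1 ≤ v i ∧ (v i : ℝ) ≤ (N : ℝ) ^ B ∧
        Carries (F i) (Real.exp √(Real.log N)) (m i) (v i)) → ∀ (s : Fin k → ℕ) (X : ℕ), 1 ≤ X →
        (∀ i, X ≤ s i ∧ s i ≤ κ * X) → NearMultiple η v s → ¬ HasRelation x y z (C ^ X) s}.ncard : ℝ) ≤
        (N : ℝ) ^ k / Real.log N ^ U) ∧
    FewTimes (fun p => p - 1) 1 ∧
    ∀ (y : ℝ) (m v : ℕ), ArithmeticFunction.carmichael m ∣ v → Carries (fun p => p - 1) y m v := by
  refine ⟨fun k hk B hB hBk => ?_, fewTimes_pred, carries_carmichael⟩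
  obtain ⟨η, hη, h⟩ := powers hk hB hBk
  refine ⟨η, hη, fun r x y z hs κ C T F hF U => ?_⟩
  exact h (HasRelation x y z) (fun H H' s hH => by
    rintro ⟨d, c, h1, h2, h3, h4⟩
    exact ⟨d, c, h1, h2.trans hH, fun i => (h3 i).trans hH, h4⟩) (fun κ' => few hs κ') κ C T F hF U

end Pool.Agent.Results.MP_9206b6_nt.CarmichaelMultiples
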