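import Mathlib
import Pool.Agent.N778.MZ.Tup

set_option autoImplicit false

/-!
# Relations between double (and multiple) zeta values after damping

For a sequence `w = (k_1, …, k_r)`, `r ≥ 1`, of positive integers and `j ≥ 0` let `H_j(w)` be the truncated multiple zeta
value `∑ 1/(m_1^{k_1} … m_r^{k_r})`, the sum over `j ≥ m_1 > … > m_r ≥ 1`, and, if `w` is admissible (`k_1 ≥ 2`), `ζ(w)`
the multiple zeta value. Let `S_w(x) = exp (-x) * ∑_j x^j/j! * H_j(w)` be the Poisson mean of the truncated values and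
`T_w(x) = exp (-x) * ∑_j x^j/j! * (ζ(w) - H_j(w))` the Poisson mean of the tails (the sums over `m_1 > j`). So
`T_w(0) = ζ(w)` and `S_w(x) + T_w(x) = ζ(w)`.

Let `F` be the field which is generated by all algebraic numbers and all numbers `exp b`, `b` algebraic. Let `𝔥` be the
space over `F` with the basis of the admissible sequences and the empty sequence `1`. For `x ∈ ℂ` let `Z_x` be the `F`-linear
map from `𝔥` to `ℂ` with `Z_x(w) = T_w(x)` and `Z_x(1) = 1`. So the kernel of `Z_0` is the space of all linear relations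
with coefficients in `F` between multiple zeta values.

(1) For every nonzero `r` in `ker Z_0` and every algebraic number `x ≠ 0` the number `Z_x(r)` is not in `F`; so no linear
relation between multiple zeta values is true for the numbers `T_w(x)`.

(2) If `r_1, …, r_n` in `ker Z_0` are linearly independent over `F` then the numbers `1` and `Z_x(r_i)`, `1 ≤ i ≤ n`, `x ≠ 0`
algebraic, are linearly independent over `F`.

(3) The kernels `ker Z_x` for all algebraic numbers `x`, including `0`, and the line `F 1` are linearly independent: for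
`r_x` in `ker Z_x`, only finitely many of them different from `0`, such that `∑ r_x` is in `F 1`, all `r_x` are `0`.

(4) Let `k = 2 m ≥ 4` be even and for `x ∈ ℂ` let `R_k(x)` be the space over `F` of the linear relations between the `m - 1` numbers
`T_{(2a+1, 2b-1)}(x)`, `a, b ≥ 1`, `a + b = m`; so `R_k(0)` is the space of the relations between the double zeta values
`ζ(2a+1, 2b-1)`. The sum of the dimensions of all `R_k(x)`, `x` algebraic, including `0`, is at most `m - 1`.

Gangl, Kaneko and Zagier proved `dim R_k(0) ≥ dim S_k`, and the conjecture says that there is equality (over the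
rationals). So by (4) the sum of the dimensions of all the other spaces `R_k(x)` is at most `m - 1 - dim S_k`, and by (1)
the relations which come from the cusp forms are not true at any other point `x`; by (2) they give `dim S_k` numbers at
every `x`, which are linearly independent over `F` (together, for all `x`, and with `1`).

Proof. For `r` in `ker Z_0` one has `Z_x(r) = Z_x(r) - Z_0(r) = - ∑ r_w S_w(x)`. The numbers `S_w(x)`, for all sequences `w`
and all algebraic `x ≠ 0`, and `1` are linearly independent over `F` (`Pool.Agent.N778.MZ`, with helper902's algebra of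
words and the Siegel-Shidlovskii theorem in the starting files).
-/

namespace Pool.Agent.Results.MP_9206b6_nt.RelationsAfterDamping

open Filter Topology

/-- the truncated multiple zeta value: `H_j(k_1, …, k_r)` is the sum over `j ≥ m_1 > … > m_r ≥ 1` -/
noncomputable def H : List ℕ → ℕ → ℂ
  | [], _ => 1
  | k :: w, j => ∑ i ∈ Finset.range j, H w i / ((i : ℂ) + 1) ^ k

/-- the multiple zeta value (here `m_1 = i + 1`) -/
noncomputable def zeta : List ℕ → ℂ
  | [] => 1
  | k :: w => ∑' i : ℕ, H w i / ((i : ℂ) + 1) ^ k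

/-- the tail: the sum over `m_1 > j` (here `m_1 = i + j + 1`) -/
noncomputable def tail : List ℕ → ℕ → ℂ
  | [], _ => 0
  | k :: w, j => ∑' i : ℕ, H w (i + j) / ((i : ℂ) + j + 1) ^ k

/-- `S_w(x)` -/
noncomputable def S (w : List ℕ) (x : ℂ) : ℂ := Complex.exp (-x) * ∑' j : ℕ, x ^ j / j.factorial * H w j

/-- `T_w(x)` -/
noncomputable def T (w : List ℕ) (x : ℂ) : ℂ := Complex.exp (-x) * ∑' j : ℕ, x ^ j / j.factorial * tail w j

/-- nonempty sequences of integers `≥ 1` -/
def Pos (w : List ℕ) : Prop := w ≠ [] ∧ ∀ k ∈ w, 1 ≤ k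

/-- nonempty sequences of integers `≥ 1` with `k_1 ≥ 2` -/
def Admissible (w : List ℕ) : Prop := Pos w ∧ ∀ k ∈ w.head?, 2 ≤ k

/-- the field `F` -/
noncomputable def baseField : IntermediateField ℚ ℂ := IntermediateField.adjoin ℚ
  ({z | IsAlgebraic ℚ z} ∪ {z | ∃ b : ℂ, IsAlgebraic ℚ b ∧ z = Complex.exp b})

/-- `Z_x` on the basis -/
noncomputable def value (x : ℂ) (w : List ℕ) : ℂ := if w = [] then 1 else T w x

/-- the map `Z_x` -/
noncomputable def Z (x : ℂ) (r : List ℕ →₀ baseField) : ℂ := r.sum fun w c => (c : ℂ) * value x w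

/-- `r` is in the kernel of `Z_x` -/
def IsRelation (x : ℂ) (r : List ℕ →₀ baseField) : Prop :=
  (∀ w ∈ r.support, w = [] ∨ Admissible w) ∧ Z x r = 0

/-- the sequence `(2a+1, 2b-1)` with `a = i + 1` and `a + b = m` -/
def oddPair (m : ℕ) (i : Fin (m - 1)) : List ℕ := [2 * i + 3, 2 * m - 2 * i - 3]

/-- the space `R_k(x)`, `k = 2 m` -/
noncomputable def R (m : ℕ) (x : ℂ) : Submodule baseField (Fin (m - 1) → baseField) :=
  LinearMap.ker (Fintype.linearCombination baseField fun i => T (oddPair m i) x)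

open Pool.Agent.N778

theorem baseField_eq : baseField = MZ.L0 := rfl

theorem H_eq (w : List ℕ) (j : ℕ) : H w j = MZ.H w j := by
  induction w generalizing j with
  | nil => rfl
  | cons k w ih =>
    rw [H, MZ.H]
    exact Finset.sum_congr rfl fun i _ => by rw [ih]

theorem zeta_eq (w : List ℕ) : zeta w = MZ.zt w := by
  rcases w with _ | ⟨k, w⟩
  · rfl
  · rw [zeta, MZ.zt]
    exact tsum_congr fun i => by rw [H_eq]

theorem tail_eq (w : List ℕ) (j : ℕ) : tail w j = MZ.tl w j := by
  rcases w with _ | ⟨k, w⟩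
  · rfl
  · rw [tail, MZ.tl]
    exact tsum_congr fun i => by rw [H_eq]

theorem S_eq (w : List ℕ) (x : ℂ) : S w x = MZ.S w x := by
  rw [S, MZ.S]
  congr 1
  exact tsum_congr fun j => by rw [H_eq]

theorem T_eq (w : List ℕ) (x : ℂ) : T w x = MZ.T w x := by
  rw [T, MZ.T]
  congr 1
  exact tsum_congr fun j => by rw [tail_eq]

theorem adm_iff {w : List ℕ} (h : Admissible w) : MZ.AdW w := by
  rcases w with _ | ⟨k, w⟩
  · exact absurd rfl h.1.1
  · exact ⟨h.2 k (by simp), fun l hl => h.1.2 l (List.mem_cons_of_mem _ hl)⟩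

theorem li_S (X : Set ℂ) (hX : ∀ x ∈ X, IsAlgebraic ℚ x ∧ x ≠ 0) : LinearIndependent baseField
    (fun o : Option {p : List ℕ × ℂ // Pos p.1 ∧ p.2 ∈ X} => (o.elim 1 (fun p => S p.1.1 p.1.2) : ℂ)) := by
  have h := MZ.li_Sn X hX
  have e : (fun o : Option {p : List ℕ × ℂ // Pos p.1 ∧ p.2 ∈ X} => (o.elim 1 (fun p => S p.1.1 p.1.2) : ℂ)) =
      (fun o : Option {p : List ℕ × ℂ // MZ.Wo p.1 ∧ p.2 ∈ X} => (o.elim 1 (fun p => MZ.S p.1.1 p.1.2) : ℂ)) := by
    funext o
    rcases o with _ | p
    · rfl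
    · exact S_eq p.1.1 p.1.2
  rw [e]
  exact h

theorem li_fin {W : Finset (List ℕ)} (hW : ∀ w ∈ W, Admissible w) {t : Finset ℂ}
    (ht : ∀ x ∈ t, IsAlgebraic ℚ x ∧ x ≠ 0) :
    LinearIndependent baseField (fun o : Option (W × t) => (o.elim 1 (fun p => S p.1 p.2) : ℂ)) := by
  have h := li_S {x | IsAlgebraic ℚ x ∧ x ≠ 0} (fun x hx => hx)
  let g : W × t → {p : List ℕ × ℂ // Pos p.1 ∧ p.2 ∈ {x : ℂ | IsAlgebraic ℚ x ∧ x ≠ 0}} :=
    fun p => ⟨(p.1, p.2), (hW _ p.1.2).1, ht _ p.2.2⟩
  have hg : Function.Injective g := by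
    intro p q hpq
    have e1 : (p.1 : List ℕ) = q.1 :=
      congrArg (fun z : {p : List ℕ × ℂ // Pos p.1 ∧ p.2 ∈ {x : ℂ | IsAlgebraic ℚ x ∧ x ≠ 0}} => z.1.1) hpq
    have e2 : (p.2 : ℂ) = q.2 :=
      congrArg (fun z : {p : List ℕ × ℂ // Pos p.1 ∧ p.2 ∈ {x : ℂ | IsAlgebraic ℚ x ∧ x ≠ 0}} => z.1.2) hpq
    exact Prod.ext (Subtype.ext e1) (Subtype.ext e2)
  have h2 := h.comp (Option.map g) (Option.map_injective hg)
  have e : (fun o : Option (W × t) => (o.elim 1 (fun p => S p.1 p.2) : ℂ)) =
      (fun o : Option {p : List ℕ × ℂ // Pos p.1 ∧ p.2 ∈ {x : ℂ | IsAlgebraic ℚ x ∧ x ≠ 0}} =>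
        (o.elim 1 (fun p => S p.1.1 p.1.2) : ℂ)) ∘ Option.map g := by
    funext o
    rcases o with _ | p
    · rfl
    · rfl
  rw [e]
  exact h2

theorem adm_iff' {w : List ℕ} : Admissible w ↔ MZ.AdW w := by
  refine ⟨adm_iff, fun h => ⟨h.wo, ?_⟩⟩
  rcases w with _ | ⟨k, w⟩
  · exact absurd h id
  · intro l hl
    have e : k = l := by simpa using hl
    rw [← e]
    exact h.1

theorem T_sub {w : List ℕ} (hw : Admissible w) (x : ℂ) : T w x = zeta w - S w x := by
  rw [T_eq, zeta_eq, S_eq]
  exact MZ.Tn_eq (adm_iff hw) x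

theorem T_zero {w : List ℕ} (hw : Admissible w) : T w 0 = zeta w := by
  rw [T_eq, zeta_eq]
  exact MZ.T_zeron (adm_iff hw)

/-- `Z` as a sum over a larger set -/
theorem Z_eq (x : ℂ) (r : List ℕ →₀ baseField) (W : Finset (List ℕ)) (h0 : [] ∉ W)
    (hW : ∀ w ∈ r.support, w = [] ∨ w ∈ W) : Z x r = (r [] : ℂ) + ∑ w ∈ W, (r w : ℂ) * T w x := by
  classical
  have h1 : Z x r = ∑ w ∈ insert [] W, (r w : ℂ) * value x w := by
    rw [Z, Finsupp.sum]
    refine Finset.sum_subset (fun w hw => ?_) ?_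
    · rcases hW w hw with rfl | h
      · exact Finset.mem_insert_self _ _
      · exact Finset.mem_insert_of_mem h
    · intro w _ hw
      rw [Finsupp.notMem_support_iff.1 hw]
      simp
  rw [h1, Finset.sum_insert h0]
  congr 1
  · rw [value, if_pos rfl, mul_one]
  · refine Finset.sum_congr rfl fun w hw => ?_
    have : w ≠ [] := fun h => h0 (h ▸ hw)
    rw [value, if_neg this]

theorem Z_sub (x : ℂ) (r : List ℕ →₀ baseField) (W : Finset (List ℕ)) (hW' : ∀ w ∈ W, Admissible w)
    (hW : ∀ w ∈ r.support, w = [] ∨ w ∈ W) : Z 0 r - Z x r = ∑ w ∈ W, (r w : ℂ) * S w x := by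
  have h0 : [] ∉ W := fun h => (hW' _ h).1.1 rfl
  rw [Z_eq 0 r W h0 hW, Z_eq x r W h0 hW, add_sub_add_left_eq_sub, ← Finset.sum_sub_distrib]
  refine Finset.sum_congr rfl fun w hw => ?_
  rw [T_zero (hW' w hw), T_sub (hW' w hw)]
  ring

theorem eq_zero {x : ℂ} {r : List ℕ →₀ baseField} (h : Z x r = 0) (hr : ∀ w, w ≠ [] → r w = 0) : r = 0 := by
  classical
  have h1 := Z_eq x r ∅ (by simp) (fun w hw => by
    by_contra h2
    push Not at h2
    exact (Finsupp.mem_support_iff.1 hw) (hr w h2.1))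
  rw [h, Finset.sum_empty, add_zero] at h1
  ext w
  by_cases hw : w = []
  · rw [hw]
    exact_mod_cast h1.symm
  · rw [hr w hw]
    rfl

theorem words_fin {ι : Type} (s : Finset ι) (r : ι → (List ℕ →₀ baseField))
    (hr : ∀ i ∈ s, ∀ w ∈ (r i).support, w = [] ∨ Admissible w) :
    ∃ W : Finset (List ℕ), (∀ w ∈ W, Admissible w) ∧ ∀ i ∈ s, ∀ w ∈ (r i).support, w = [] ∨ w ∈ W := by
  classical
  refine ⟨(s.biUnion fun i => (r i).support).filter Admissible, fun w hw => (Finset.mem_filter.1 hw).2, ?_⟩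
  intro i hi w hw
  rcases hr i hi w hw with h | h
  · exact Or.inl h
  · exact Or.inr (Finset.mem_filter.2 ⟨Finset.mem_biUnion.2 ⟨i, hi, hw⟩, h⟩)

theorem Z_smul_sum {n : ℕ} (x : ℂ) (g : Fin n → baseField) (r : Fin n → (List ℕ →₀ baseField)) :
    Z x (∑ i, g i • r i) = ∑ i, (g i : ℂ) * Z x (r i) := by
  have e : ∀ q : List ℕ →₀ baseField, Z x q = Finsupp.linearCombination baseField (value x) q := fun q => rfl
  rw [e, map_sum]
  refine Finset.sum_congr rfl fun i _ => ?_
  rw [map_smul, e]
  rfl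

theorem li_values {n : ℕ} (r : Fin n → (List ℕ →₀ baseField)) (hr : ∀ i, IsRelation 0 (r i))
    (hli : LinearIndependent baseField r) (t : Finset ℂ) (ht : ∀ x ∈ t, IsAlgebraic ℚ x ∧ x ≠ 0) :
    LinearIndependent baseField (fun o : Option (Fin n × t) => (o.elim 1 (fun p => Z p.2 (r p.1)) : ℂ)) := by
  classical
  obtain ⟨W, hW', hW⟩ := words_fin Finset.univ r fun i _ => (hr i).1
  have hS := li_fin (W := W) hW' ht
  rw [Fintype.linearIndependent_iff] at hS ⊢
  intro g hg
  have hZ : ∀ (i : Fin n) (x : ℂ), Z x (r i) = -∑ w : W, (r i w : ℂ) * S w x := by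
    intro i x
    have h1 := Z_sub x (r i) W hW' (hW i (Finset.mem_univ i))
    rw [(hr i).2] at h1
    rw [Finset.sum_coe_sort W (fun w => (r i w : ℂ) * S w x), ← h1]
    ring
  have h1 := hS (fun o => o.elim (g none) (fun p => -∑ i, g (some (i, p.2)) * r i p.1)) (by
    rw [← hg, Fintype.sum_option, Fintype.sum_option]
    congr 1
    rw [Fintype.sum_prod_type, Fintype.sum_prod_type, Finset.sum_comm, Finset.sum_comm (s := (Finset.univ : Finset (Fin n)))]
    refine Finset.sum_congr rfl fun x _ => ?_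
    show ∑ w : W, (-∑ i, g (some (i, x)) * r i w) • S w x = ∑ i, g (some (i, x)) • Z x (r i)
    have e1 : ∀ w : W, (-∑ i, g (some (i, x)) * r i w) • S w x = ∑ i, -((g (some (i, x)) : ℂ) * (r i w : ℂ) * S w x) := by
      intro w
      rw [Finset.sum_neg_distrib, ← Finset.sum_mul]
      show ((-∑ i, g (some (i, x)) * r i w : baseField) : ℂ) * S w x = _
      push_cast
      ring
    rw [Finset.sum_congr rfl fun w _ => e1 w, Finset.sum_comm]
    refine Finset.sum_congr rfl fun i _ => ?_
    rw [hZ]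
    show _ = (g (some (i, x)) : ℂ) * _
    rw [mul_neg, Finset.mul_sum, ← Finset.sum_neg_distrib]
    refine Finset.sum_congr rfl fun w _ => ?_
    ring)
  intro o
  rcases o with _ | ⟨i, x⟩
  · exact h1 none
  · have h2 : ∑ i, g (some (i, x)) • r i = 0 := by
      refine eq_zero (x := 0) ?_ fun w hw => ?_
      · rw [Z_smul_sum 0 (fun i => g (some (i, x))) r]
        exact Finset.sum_eq_zero fun i _ => by rw [(hr i).2, mul_zero]
      · rw [Finsupp.finsetSum_apply]
        by_cases hwW : w ∈ W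
        · have h3 : -∑ i, g (some (i, x)) * r i w = 0 := h1 (some (⟨w, hwW⟩, x))
          rw [neg_eq_zero] at h3
          exact h3
        · refine Finset.sum_eq_zero fun i _ => ?_
          have h3 : r i w = 0 := by
            by_contra h4
            rcases hW i (Finset.mem_univ i) w (Finsupp.mem_support_iff.2 h4) with h | h
            · exact hw h
            · exact hwW h
          rw [Finsupp.smul_apply, h3, smul_zero]
    rw [Fintype.linearIndependent_iff] at hli
    exact hli (fun i => g (some (i, x))) h2 i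

theorem independent : ∀ (t : Finset ℂ) (r : ℂ → (List ℕ →₀ baseField)),
    (∀ x ∈ t, IsAlgebraic ℚ x ∧ IsRelation x (r x)) →
      (∀ w, w ≠ [] → (∑ x ∈ t, r x) w = 0) → ∀ x ∈ t, r x = 0 := by
  classical
  intro t r hr hsum
  obtain ⟨W, hW', hW⟩ := words_fin t r fun x hx => (hr x hx).2.1
  have hS := li_fin (W := W) (t := t.erase 0) hW' (fun x hx =>
    ⟨(hr x (Finset.mem_erase.1 hx).2).1, (Finset.mem_erase.1 hx).1⟩)
  have h0W : [] ∉ W := fun h => (hW' _ h).1.1 rfl
  set σ : List ℕ →₀ baseField := ∑ x ∈ t, r x with hσ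
  have hZr : ∀ x ∈ t, Z 0 (r x) = ∑ w : W, (r x w : ℂ) * S w x := by
    intro x hx
    have h1 := Z_sub x (r x) W hW' (hW x hx)
    rw [(hr x hx).2.2, sub_zero] at h1
    rw [Finset.sum_coe_sort W (fun w => (r x w : ℂ) * S w x), ← h1]
  have hS0 : ∀ w ∈ W, S w 0 = 0 := by
    intro w hw
    rw [S_eq]
    exact MZ.S_zeron (hW' w hw).1.1
  have hZσ : Z 0 σ = (σ [] : ℂ) := by
    have h1 := Z_eq 0 σ ∅ (by simp) (fun w hw => by
      by_contra h2
      push Not at h2
      exact (Finsupp.mem_support_iff.1 hw) (hsum w h2.1))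
    rw [h1, Finset.sum_empty, add_zero]
  have hZσ2 : Z 0 σ = ∑ x ∈ t, Z 0 (r x) := by
    have e : ∀ q : List ℕ →₀ baseField, Z 0 q = Finsupp.linearCombination baseField (value 0) q := fun q => rfl
    rw [hσ, e, map_sum]
    exact Finset.sum_congr rfl fun x _ => (e _).symm
  have hZσ3 : ∑ x ∈ t, Z 0 (r x) = ∑ x ∈ t.erase 0, Z 0 (r x) := by
    symm
    refine Finset.sum_subset (Finset.erase_subset _ _) fun x hx hx' => ?_
    have h1 : x = 0 := by
      by_contra h2
      exact hx' (Finset.mem_erase.2 ⟨h2, hx⟩)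
    rw [hZr x hx, h1]
    exact Finset.sum_eq_zero fun w _ => by rw [hS0 w w.2, mul_zero]
  rw [Fintype.linearIndependent_iff] at hS
  have h1 := hS (fun o => o.elim (-σ []) (fun p => r p.2 p.1)) (by
    rw [Fintype.sum_option, Fintype.sum_prod_type, Finset.sum_comm]
    have h2 : ∑ x : (t.erase 0 : Finset ℂ), ∑ w : W, r x w • S w x = (σ [] : ℂ) := by
      rw [Finset.sum_coe_sort (t.erase 0) (fun x => ∑ w : W, r x w • S w x), ← hZσ, hZσ2, hZσ3]
      refine Finset.sum_congr rfl fun x hx => ?_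
      rw [hZr x (Finset.mem_erase.1 hx).2]
      rfl
    show (-σ []) • (1 : ℂ) + ∑ x : (t.erase 0 : Finset ℂ), ∑ w : W, r x w • S w x = 0
    rw [h2]
    show ((-σ [] : baseField) : ℂ) * 1 + (σ [] : ℂ) = 0
    push_cast
    ring)
  have hne : ∀ x ∈ t, x ≠ 0 → r x = 0 := by
    intro x hx hx0
    refine eq_zero (hr x hx).2.2 fun w hw => ?_
    by_cases hwW : w ∈ W
    · exact h1 (some (⟨w, hwW⟩, ⟨x, Finset.mem_erase.2 ⟨hx0, hx⟩⟩))
    · by_contra h4
      rcases hW x hx w (Finsupp.mem_support_iff.2 h4) with h | h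
      · exact hw h
      · exact hwW h
  intro x hx
  by_cases hx0 : x = 0
  · subst hx0
    refine eq_zero (hr 0 hx).2.2 fun w hw => ?_
    have h2 := hsum w hw
    rw [hσ, Finset.sum_eq_single 0 (fun y hy hy0 => hne y hy hy0) (fun h => absurd hx h)] at h2
    exact h2
  · exact hne x hx hx0

theorem oddPair_adm {m : ℕ} (i : Fin (m - 1)) : Admissible (oddPair m i) := by
  have hi := i.2
  refine ⟨⟨by simp [oddPair], fun k hk => ?_⟩, fun k hk => ?_⟩
  · rw [oddPair, List.mem_cons, List.mem_singleton] at hk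
    omega
  · rw [oddPair, List.head?_cons, Option.mem_some_iff] at hk
    omega

theorem oddPair_inj {m : ℕ} : Function.Injective (oddPair m) := by
  intro i j h
  have h1 : 2 * (i : ℕ) + 3 = 2 * j + 3 := (List.cons.inj h).1
  exact Fin.ext (by omega)

/-- the element of `𝔥` which belongs to a vector -/
noncomputable def toWords (m : ℕ) : (Fin (m - 1) → baseField) →ₗ[baseField] (List ℕ →₀ baseField) :=
  Fintype.linearCombination baseField fun i => Finsupp.single (oddPair m i) (1 : baseField)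

theorem toWords_apply {m : ℕ} (c : Fin (m - 1) → baseField) (i : Fin (m - 1)) : toWords m c (oddPair m i) = c i := by
  classical
  rw [toWords, Fintype.linearCombination_apply, Finsupp.finsetSum_apply, Finset.sum_eq_single i]
  · rw [Finsupp.smul_apply, Finsupp.single_eq_same, smul_eq_mul, mul_one]
  · intro j _ hj
    rw [Finsupp.smul_apply, Finsupp.single_apply, if_neg (fun h => hj (oddPair_inj h)), smul_zero]
  · intro h
    exact absurd (Finset.mem_univ i) h

theorem toWords_other {m : ℕ} (c : Fin (m - 1) → baseField) {w : List ℕ} (hw : ∀ i, oddPair m i ≠ w) :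
    toWords m c w = 0 := by
  classical
  rw [toWords, Fintype.linearCombination_apply, Finsupp.finsetSum_apply]
  refine Finset.sum_eq_zero fun i _ => ?_
  rw [Finsupp.smul_apply, Finsupp.single_apply, if_neg (hw i), smul_zero]

theorem toWords_rel {m : ℕ} {x : ℂ} {c : Fin (m - 1) → baseField} (hc : c ∈ R m x) : IsRelation x (toWords m c) := by
  classical
  refine ⟨fun w hw => ?_, ?_⟩
  · right
    by_contra h
    exact (Finsupp.mem_support_iff.1 hw) (toWords_other c fun i hi => h (hi ▸ oddPair_adm i))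
  · have e : ∀ q : List ℕ →₀ baseField, Z x q = Finsupp.linearCombination baseField (value x) q := fun q => rfl
    rw [R, LinearMap.mem_ker, Fintype.linearCombination_apply] at hc
    rw [e, toWords, Fintype.linearCombination_apply, map_sum, ← hc]
    refine Finset.sum_congr rfl fun i _ => ?_
    rw [map_smul, Finsupp.linearCombination_single, one_smul, value, if_neg (by simp [oddPair])]

/-- **Relations after damping** -/
theorem result :
    (∀ w : List ℕ, Admissible w → T w 0 = zeta w) ∧
    (∀ r : List ℕ →₀ baseField, IsRelation 0 r → r ≠ 0 → ∀ x : ℂ, IsAlgebraic ℚ x → x ≠ 0 → Z x r ∉ baseField) ∧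
    (∀ (n : ℕ) (r : Fin n → (List ℕ →₀ baseField)), (∀ i, IsRelation 0 (r i)) → LinearIndependent baseField r →
      ∀ t : Finset ℂ, (∀ x ∈ t, IsAlgebraic ℚ x ∧ x ≠ 0) →
        LinearIndependent baseField (fun o : Option (Fin n × t) => (o.elim 1 (fun p => Z p.2 (r p.1)) : ℂ))) ∧
    (∀ (t : Finset ℂ) (r : ℂ → (List ℕ →₀ baseField)), (∀ x ∈ t, IsAlgebraic ℚ x ∧ IsRelation x (r x)) →
      (∀ w, w ≠ [] → (∑ x ∈ t, r x) w = 0) → ∀ x ∈ t, r x = 0) ∧
    ∀ (m : ℕ) (t : Finset ℂ), (∀ x ∈ t, IsAlgebraic ℚ x) → ∑ x ∈ t, Module.finrank baseField (R m x) ≤ m - 1 := by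
  classical
  have part3 : ∀ (t : Finset ℂ) (r : ℂ → (List ℕ →₀ baseField)), (∀ x ∈ t, IsAlgebraic ℚ x ∧ IsRelation x (r x)) →
      (∀ w, w ≠ [] → (∑ x ∈ t, r x) w = 0) → ∀ x ∈ t, r x = 0 := independent
  refine ⟨fun w hw => T_zero hw, ?_, fun n r hr hli t ht => li_values r hr hli t ht, part3, ?_⟩
  · intro r hr hr0 x hx hx0 hmem
    have hli : LinearIndependent baseField (fun _ : Fin 1 => r) := by
      rw [Fintype.linearIndependent_iff]
      intro g hg i
      rw [Fin.sum_univ_one] at hg
      rw [Subsingleton.elim i 0]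
      exact (smul_eq_zero.1 hg).resolve_right hr0
    have h1 := li_values (fun _ : Fin 1 => r) (fun _ => hr) hli {x} (fun y hy => by
      rw [Finset.mem_singleton] at hy
      rw [hy]; exact ⟨hx, hx0⟩)
    rw [Fintype.linearIndependent_iff] at h1
    let x' : ({x} : Finset ℂ) := ⟨x, Finset.mem_singleton_self x⟩
    have h2 := h1 (fun o => o.elim (⟨Z x r, hmem⟩ : baseField) (fun _ => -1)) (by
      rw [Fintype.sum_option, Fintype.sum_prod_type, Fin.sum_univ_one]
      have h3 : ∀ y : ({x} : Finset ℂ), y = x' := fun y => Subtype.ext (Finset.mem_singleton.1 y.2)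
      rw [Fintype.sum_eq_single x' (fun y hy => absurd (h3 y) hy)]
      show (⟨Z x r, hmem⟩ : baseField) • (1 : ℂ) + (-1 : baseField) • Z x r = 0
      rw [neg_smul, one_smul]
      show Z x r * 1 + -Z x r = 0
      ring) (some (0, x'))
    have h3 : (-1 : baseField) = 0 := h2
    exact one_ne_zero (neg_eq_zero.1 h3)
  · intro m t ht
    let Φ : (∀ x : t, R m x) →ₗ[baseField] (Fin (m - 1) → baseField) :=
      ∑ x : t, (R m x).subtype ∘ₗ LinearMap.proj x
    have hΦ : ∀ c, Φ c = ∑ x : t, (c x : Fin (m - 1) → baseField) := fun c => by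
      rw [LinearMap.sum_apply]
      rfl
    have hinj : Function.Injective Φ := by
      rw [injective_iff_map_eq_zero]
      intro c hc
      rw [hΦ] at hc
      let r : ℂ → (List ℕ →₀ baseField) := fun x => if hx : x ∈ t then toWords m (c ⟨x, hx⟩) else 0
      have hrx : ∀ x : t, r x = toWords m (c x) := fun x => by
        show (if hx : (x : ℂ) ∈ t then toWords m (c ⟨x, hx⟩) else 0) = _
        rw [dif_pos x.2]
      have h1 : ∑ x ∈ t, r x = 0 := by
        rw [← Finset.sum_coe_sort t r, Finset.sum_congr rfl fun x _ => hrx x, ← map_sum, hc, map_zero]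
      have h2 := part3 t r (fun x hx => ⟨ht x hx, by rw [hrx ⟨x, hx⟩]; exact toWords_rel (c ⟨x, hx⟩).2⟩)
        (fun w _ => by rw [h1]; rfl)
      funext x
      apply Subtype.ext
      funext i
      have h3 := h2 x x.2
      rw [hrx] at h3
      rw [← toWords_apply (c x : Fin (m - 1) → baseField) i, h3]
      rfl
    have h1 := LinearMap.finrank_le_finrank_of_injective hinj
    rw [Module.finrank_pi_fintype, Module.finrank_fintype_fun_eq_card, Fintype.card_fin, Finset.sum_coe_sort t
      (fun x => Module.finrank baseField (R m x))] at h1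
    exact h1

end Pool.Agent.Results.MP_9206b6_nt.RelationsAfterDamping
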